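import Pool.Agent.L5helper51.SY.Main
import Pool.Agent.L5helper51.SX.Final

/-!
# Randomized approximation
-/

namespace Pool.Agent.L5helper51.SX

open Pool.Agent.L5helper51.SV (Mon evm evm_add walkWeight dist ext subset_ext mem_ext ext_le res)

open Finset

variable {V R : Type*} {M ℓ : ℕ} {s t : V} (Λ : Lay V M ℓ s t)

namespace Lay

/-- Few factors: all but few positions occur once. -/
theorem exists_clean [DecidableEq V] {x : Mon V} {p : ℕ → Fin M} {B : ℕ} (hs : Λ.Supp x p)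
    (hB : Multiset.card x.1 ≤ B) :
    ∃ A : Finset ℕ, (∀ i ∈ A, i < ℓ) ∧ (∀ i ∈ A, x.1.count (Λ.edge p i) = 1) ∧
      ℓ ≤ #A + (B - ℓ) := by
  classical
  refine ⟨{i ∈ range ℓ | x.1.count (Λ.edge p i) = 1}, fun i hi => ?_, fun i hi => ?_, ?_⟩
  · exact mem_range.1 (mem_filter.1 hi).1
  · exact (mem_filter.1 hi).2
  have hinj : Set.InjOn (Λ.edge p) (range ℓ : Set ℕ) := by
    intro i hi j hj h
    rw [mem_coe, mem_range] at hi hj
    rw [← Λ.L_edge (p := p) hi, h, Λ.L_edge hj]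
  have h1 : ∑ i ∈ range ℓ, x.1.count (Λ.edge p i) ≤ Multiset.card x.1 := by
    rw [← Finset.sum_image (f := fun e => x.1.count e) hinj, ← Multiset.toFinset_sum_count_eq]
    apply Finset.sum_le_sum_of_subset
    intro e he
    obtain ⟨i, hi, rfl⟩ := mem_image.1 he
    rw [Multiset.mem_toFinset]
    exact (hs _).2 ⟨i, mem_range.1 hi, rfl⟩
  have h2 : ∑ i ∈ range ℓ, (2 - if x.1.count (Λ.edge p i) = 1 then 1 else 0) ≤
      ∑ i ∈ range ℓ, x.1.count (Λ.edge p i) := by
    apply Finset.sum_le_sum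
    intro i hi
    have h3 : 1 ≤ x.1.count (Λ.edge p i) :=
      Multiset.one_le_count_iff_mem.2 ((hs _).2 ⟨i, mem_range.1 hi, rfl⟩)
    split_ifs with h4 <;> omega
  have h5 : ∑ i ∈ range ℓ, (2 - if x.1.count (Λ.edge p i) = 1 then 1 else 0) +
      #{i ∈ range ℓ | x.1.count (Λ.edge p i) = 1} = 2 * ℓ := by
    rw [card_filter, ← Finset.sum_add_distrib]
    calc ∑ i ∈ range ℓ, ((2 - if x.1.count (Λ.edge p i) = 1 then 1 else 0) +
          if x.1.count (Λ.edge p i) = 1 then 1 else 0) = ∑ _i ∈ range ℓ, 2 := by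
          apply Finset.sum_congr rfl
          intro i _
          split_ifs <;> rfl
      _ = 2 * ℓ := by rw [sum_const, card_range, smul_eq_mul, mul_comm]
  omega

open Classical in
/-- The parts of paths for which the program gives at most `B`. -/
noncomputable def found2 (P : List (Step V R)) (out : R) (k B : ℕ) (M0 : Fin M) :
    Finset (Tr M k) :=
  {z | value P out (Λ.wt (pth k M0 z M0)) ≤ (B : ℕ∞)}

theorem found2_le [Fintype R] {P : List (Step V R)} {out : R} (hP : Sound P out s t) {k i0 B : ℕ}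
    {τ : ℝ} (hτ : 1 ≤ τ) (hM : (Fintype.card R : ℝ) * 2 ^ k * τ ≤ M) (hM0 : 0 < M)
    (hl : ℓ = 2 ^ k) (hi0 : i0 ≤ k) {β : ℝ} (hβ : ((k : ℝ) - i0) / 2 = β * (1 - 1 / 2 ^ i0))
    (hβ0 : 0 ≤ β) (hB : B - 2 ^ k ≤ 2 ^ k) (M0 : Fin M) :
    (#(Λ.found2 P out k B M0) : ℝ) ≤ P.length * ((2 : ℝ) ^ (k + 2)) ^ (k - i0) *
      τ ^ (β * ((B - 2 ^ k : ℕ) : ℝ) / 2 ^ k - ((k - i0 : ℕ) : ℝ) / 2) * nT M k := by
  classical
  by_cases hne : P = []
  · subst hne
    have : Λ.found2 [] out k B M0 = ∅ := by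
      rw [eq_empty_iff_forall_notMem]
      intro z hz
      simp only [found2, mem_filter, mem_univ, true_and] at hz
      have h1 : value ([] : List (Step V R)) out (Λ.wt (pth k M0 z M0)) = ⊤ := rfl
      rw [h1, top_le_iff] at hz
      exact ENat.natCast_ne_top B hz
    rw [this]
    simp
  have hk : i0 + (k - i0) = k := by omega
  have h := Λ.main2 hP hτ hM hM0 hl hβ hβ0 (k - i0) (by omega) (B - 2 ^ k) hB P [] [] 0 M0 M0 hne
    (by simp) (by rw [hk]; omega)
  rw [hk] at h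
  refine le_trans ?_ h
  have hsub : Λ.found2 P out k B M0 ⊆ Λ.S2 out [] P [] k (B - 2 ^ k) 0 M0 M0 := by
    intro z hz
    simp only [found2, mem_filter, mem_univ, true_and] at hz
    rw [mem_S2]
    set p : ℕ → Fin M := pth k M0 z M0
    obtain ⟨x, hx, hs, hxB⟩ := Λ.exists_mem hP p hz
    obtain ⟨A, hA1, hA2, hA3⟩ := Λ.exists_clean hs hxB
    refine ⟨p, fun j _ => by rw [zero_add], x, A, ⟨hs, ?_, ?_, ?_⟩, ?_⟩
    · intro i hi
      have := hA1 i hi
      omega
    · intro i hi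
      convert hA2 i hi
    · rw [hl] at hA3
      exact hA3
    · refine ⟨P, [], by simp, out, x, ?_, 0, zero_mem_ctx _ _, by simp, ?_⟩
      · have h2 : res (Λ.Free2 A) (fin ([] : List (Step V R))) = fun _ => ∅ := by
          funext a
          ext m
          simp [res, fin, cnt_nil]
        rw [h2]
        exact hx
      · intro j hj
        exact (hs _).2 ⟨j, hA1 j hj, rfl⟩
  exact_mod_cast Finset.card_le_card hsub

end Lay

/-- A family of sound programs of length at most `T` such that for all weights in `{0, 1, ∞}` at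
least the fraction `1 / q` of the programs approximates the least weight of a walk up to the factor
`a / b`. -/
structure Approx {Ω : Type*} [Fintype Ω] (P : Ω → List (Step V R)) (out : R) (s t : V)
    (a b q T : ℕ) : Prop where
  len : ∀ ω, (P ω).length ≤ T
  sound : ∀ ω, ∀ w : V × V → ℕ∞, (∀ e, w e = 0 ∨ w e = 1 ∨ w e = ⊤) →
    dist w s t ≤ value (P ω) out w
  prob : ∀ w : V × V → ℕ∞, (∀ e, w e = 0 ∨ w e = 1 ∨ w e = ⊤) →
    Nat.card Ω ≤ q * Nat.card {ω // b * value (P ω) out w ≤ a * dist w s t}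

theorem Approx.sound' {Ω : Type*} [Fintype Ω] {P : Ω → List (Step V R)} {out : R} {s t : V}
    {a b q T : ℕ} (h : Approx P out s t a b q T) (ω : Ω) : Sound (P ω) out s t :=
  fun w hw => h.sound ω w (fun e => (hw e).imp id Or.inr)

/-- The lower bound with all parameters. -/
theorem approx_lower [Fintype V] [Fintype R] {s t : V} (hst : s ≠ t) {Ω : Type*} [Fintype Ω]
    [Nonempty Ω] {P : Ω → List (Step V R)} {out : R} {a b q T : ℕ} (hb : 0 < b)
    (hab : b ≤ a) (hab2 : a ≤ 2 * b) (hP : Approx P out s t a b q T) {k i0 : ℕ} {τ : ℝ}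
    (hτ : 1 ≤ τ) (hM : (Fintype.card R : ℝ) * 2 ^ k * τ ≤ M) (hM0 : 0 < M)
    (hV : M * (2 ^ k - 1) + 2 ≤ Fintype.card V)
    (hi0 : i0 ≤ k) {β : ℝ} (hβ : ((k : ℝ) - i0) / 2 = β * (1 - 1 / 2 ^ i0))
    (hβ0 : 0 ≤ β) :
    1 ≤ (q * T : ℝ) * ((2 : ℝ) ^ (k + 2)) ^ (k - i0) *
      τ ^ (β * ((a : ℝ) / b - 1) - ((k - i0 : ℕ) : ℝ) / 2) := by
  classical
  obtain ⟨Λ⟩ := exists_lay hst (M := M) hV
  have M0 : Fin M := ⟨0, hM0⟩
  have hΩ : 0 < Fintype.card Ω := Fintype.card_pos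
  have hΩR : (0 : ℝ) < Fintype.card Ω := by exact_mod_cast hΩ
  have hn : 0 < nT M k := nT_pos hM0 k
  have hnR : (0 : ℝ) < nT M k := by exact_mod_cast hn
  have hτ0 : 0 < τ := by linarith
  set B : ℕ := a * 2 ^ k / b with hB
  have hB2 : B - 2 ^ k ≤ 2 ^ k := by
    have : B ≤ 2 * 2 ^ k := by
      rw [hB]
      apply Nat.div_le_of_le_mul
      calc a * 2 ^ k ≤ (2 * b) * 2 ^ k := Nat.mul_le_mul_right _ hab2
        _ = _ := by ring
    omega
  have hBr : ((B - 2 ^ k : ℕ) : ℝ) / 2 ^ k ≤ (a : ℝ) / b - 1 := by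
    have hbR : (0 : ℝ) < b := by exact_mod_cast hb
    have h1 : 2 ^ k ≤ B := by
      rw [hB, Nat.le_div_iff_mul_le hb, mul_comm]
      exact Nat.mul_le_mul_right _ hab
    rw [Nat.cast_sub h1, sub_div]
    push_cast
    rw [div_self (by positivity)]
    have h2 : (B : ℝ) ≤ a * 2 ^ k / b := by
      rw [hB]
      exact_mod_cast Nat.cast_div_le (α := ℝ) (m := a * 2 ^ k) (n := b)
    have h3 : (B : ℝ) / 2 ^ k ≤ (a : ℝ) / b := by
      rw [div_le_iff₀ (by positivity)]
      refine h2.trans (le_of_eq ?_)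
      ring
    linarith
  -- every path is found with probability at least `1 / q`
  have h1 : ∀ z : Tr M k, Fintype.card Ω ≤ q * #{ω | z ∈ Λ.found2 (P ω) out k B M0} := by
    intro z
    have h2 := hP.prob (Λ.wt (pth k M0 z M0)) (Λ.wt_values _)
    rw [Nat.card_eq_fintype_card, Nat.card_eq_fintype_card, Fintype.card_subtype] at h2
    refine h2.trans (Nat.mul_le_mul_left _ (Finset.card_le_card ?_))
    intro ω hω
    simp only [mem_filter, mem_univ, true_and, Lay.found2] at hω ⊢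
    have h3 : (b : ℕ∞) * value (P ω) out (Λ.wt (pth k M0 z M0)) ≤ ((a * 2 ^ k : ℕ) : ℕ∞) := by
      refine hω.trans ?_
      rw [Nat.cast_mul]
      exact mul_le_mul' le_rfl (Λ.dist_wt_le (by positivity) _)
    have h4 : value (P ω) out (Λ.wt (pth k M0 z M0)) ≠ ⊤ := by
      intro h
      rw [h, ENat.mul_top (by exact_mod_cast hb.ne')] at h3
      exact ENat.natCast_ne_top _ (top_le_iff.1 h3)
    obtain ⟨m, hm⟩ := ENat.ne_top_iff_exists.1 h4
    rw [← hm] at h3 ⊢
    rw [hB]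
    have h5 : b * m ≤ a * 2 ^ k := by exact_mod_cast h3
    have h6 : m ≤ a * 2 ^ k / b := (Nat.le_div_iff_mul_le hb).2 (by rwa [mul_comm])
    exact_mod_cast h6
  have h2 : ∑ ω, #(Λ.found2 (P ω) out k B M0) =
      ∑ z : Tr M k, #{ω | z ∈ Λ.found2 (P ω) out k B M0} := by
    simp only [Finset.card_filter]
    rw [Finset.sum_comm]
    apply Finset.sum_congr rfl
    intro ω _
    rw [← Finset.card_filter]
    congr 1
    ext z
    simp
  have h3 : Fintype.card Ω * nT M k ≤ q * ∑ ω, #(Λ.found2 (P ω) out k B M0) := by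
    rw [h2, Finset.mul_sum]
    calc Fintype.card Ω * nT M k = ∑ _z : Tr M k, Fintype.card Ω := by
          rw [Finset.sum_const, card_univ, smul_eq_mul, mul_comm]; rfl
      _ ≤ _ := Finset.sum_le_sum (fun z _ => h1 z)
  have h3R : (Fintype.card Ω : ℝ) * nT M k ≤ q * ∑ ω, (#(Λ.found2 (P ω) out k B M0) : ℝ) := by
    exact_mod_cast h3
  set D : ℝ := ((2 : ℝ) ^ (k + 2)) ^ (k - i0) *
      τ ^ (β * ((a : ℝ) / b - 1) - ((k - i0 : ℕ) : ℝ) / 2) with hD
  have hD0 : 0 < D := by positivity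
  have h4 : ∑ ω, (#(Λ.found2 (P ω) out k B M0) : ℝ) ≤ Fintype.card Ω * (T * D * nT M k) := by
    calc ∑ ω, (#(Λ.found2 (P ω) out k B M0) : ℝ) ≤ ∑ _ω : Ω, (T * D * nT M k : ℝ) := by
          apply Finset.sum_le_sum
          intro ω _
          refine (Λ.found2_le (hP.sound' ω) hτ hM hM0 rfl hi0 hβ hβ0 hB2 M0).trans ?_
          have h5 : ((P ω).length : ℝ) ≤ T := by exact_mod_cast hP.len ω
          have h6 : τ ^ (β * ((B - 2 ^ k : ℕ) : ℝ) / 2 ^ k - ((k - i0 : ℕ) : ℝ) / 2) ≤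
              τ ^ (β * ((a : ℝ) / b - 1) - ((k - i0 : ℕ) : ℝ) / 2) := by
            apply Real.rpow_le_rpow_of_exponent_le hτ
            rw [mul_div_assoc]
            have := mul_le_mul_of_nonneg_left hBr hβ0
            linarith
          rw [hD, ← mul_assoc]
          gcongr
      _ = _ := by rw [Finset.sum_const, card_univ, nsmul_eq_mul]
  have h5 : (Fintype.card Ω : ℝ) * nT M k ≤ (Fintype.card Ω : ℝ) * nT M k * (q * T * D) := by
    refine h3R.trans ?_
    calc (q : ℝ) * ∑ ω, (#(Λ.found2 (P ω) out k B M0) : ℝ)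
        ≤ q * (Fintype.card Ω * (T * D * nT M k)) := by gcongr
      _ = _ := by ring
  have h6 : (1 : ℝ) ≤ q * T * D := by
    have : (0 : ℝ) < (Fintype.card Ω : ℝ) * nT M k := by positivity
    by_contra hcon
    push Not at hcon
    have := mul_lt_mul_of_pos_left hcon this
    linarith
  rw [hD, ← mul_assoc] at h6
  exact h6

end Pool.Agent.L5helper51.SX
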