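import Pool.Agent.L5helper51.SY.Layer
import Pool.Agent.L5helper51.SX.Count

/-!
# Counting for approximating programs

The positions in a set `A` occur exactly once in the monomial of the path; at most `d` positions of
the interval are missing in `A`.
-/

namespace Pool.Agent.L5helper51.SX

open Pool.Agent.L5helper51.SV (Mon evm evm_add walkWeight dist ext subset_ext mem_ext ext_le res)

open Finset

open Classical in
/-- The number of paths which meet a given sequence in an inner layer. -/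
theorem card_meet {M : ℕ} (i : ℕ) (u v : Fin M) (x : ℕ → Fin M) :
    #{z : Tr M i | ∃ j, 0 < j ∧ j < 2 ^ i ∧ pth i u z v j = x j} * M ≤ 2 ^ i * nT M i := by
  have hsub : ({z : Tr M i | ∃ j, 0 < j ∧ j < 2 ^ i ∧ pth i u z v j = x j} : Finset (Tr M i)) ⊆
      (Finset.Ioo 0 (2 ^ i)).biUnion (fun j => {z : Tr M i | pth i u z v j = x j}) := by
    intro z hz
    simp only [mem_filter, mem_univ, true_and] at hz
    obtain ⟨j, h1, h2, h3⟩ := hz
    exact mem_biUnion.2 ⟨j, mem_Ioo.2 ⟨h1, h2⟩, by simp [h3]⟩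
  calc #{z : Tr M i | ∃ j, 0 < j ∧ j < 2 ^ i ∧ pth i u z v j = x j} * M
      ≤ (∑ j ∈ Finset.Ioo 0 (2 ^ i), #{z : Tr M i | pth i u z v j = x j}) * M :=
        Nat.mul_le_mul_right _ ((card_le_card hsub).trans card_biUnion_le)
    _ = ∑ j ∈ Finset.Ioo 0 (2 ^ i), #{z : Tr M i | pth i u z v j = x j} * M := by
        rw [Finset.sum_mul]
    _ ≤ ∑ _j ∈ Finset.Ioo 0 (2 ^ i), nT M i := by
        apply Finset.sum_le_sum
        intro j hj
        rw [mem_Ioo] at hj
        exact card_pth i u v (x j) j hj.1 hj.2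
    _ ≤ 2 ^ i * nT M i := by
        rw [sum_const, smul_eq_mul, Nat.card_Ioo]
        exact Nat.mul_le_mul_right _ ((Nat.sub_le _ _).trans (Nat.sub_le _ _))

variable {V R : Type*} {M ℓ : ℕ} {s t : V} (Λ : Lay V M ℓ s t)

namespace Lay

/-- no edge of `m` has its position in `A` -/
def Free2 (A : Finset ℕ) (m : Mon V) : Prop := ∀ e ∈ m.1, Λ.L e.1 ∉ A

/-- `m` contains the edges of `p` with position in `A` -/
def Full2 (p : ℕ → Fin M) (A : Finset ℕ) (m : Mon V) : Prop := ∀ i ∈ A, Λ.edge p i ∈ m.1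

/-- The part `A` of the monomial `x` of the path `p` is put together in the window `W` of the
program `pre ++ W ++ post`. -/
def Good2 (out : R) (pre W post : List (Step V R)) (A : Finset ℕ) (x : Mon V) (p : ℕ → Fin M) :
    Prop :=
  ∃ W1 W2, W = W1 ++ W2 ∧ ∃ b, ∃ m ∈ cnt W1 (res (Λ.Free2 A) (fin pre)) b,
    ∃ K ∈ Ctx out (W2 ++ post) (fin (pre ++ W1)) b, K + m = x ∧ Λ.Full2 p A m

/-- The exceptional situation. -/
def Exc2 (out : R) (pre post : List (Step V R)) (A : Finset ℕ) (b : R) (x : Mon V)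
    (p : ℕ → Fin M) : Prop :=
  ∃ m ∈ fin pre b, ∃ K ∈ Ctx out post (fin pre) b, K + m = x ∧
    ¬ Λ.Free2 A m ∧ ¬ Λ.Full2 p A m

theorem good2_split {out : R} {pre Wa Wb post : List (Step V R)} {A : Finset ℕ} {x : Mon V}
    {p : ℕ → Fin M} (hg : Λ.Good2 out pre (Wa ++ Wb) post A x p) :
    Λ.Good2 out pre Wa (Wb ++ post) A x p ∨ Λ.Good2 out (pre ++ Wa) Wb post A x p ∨
      ∃ b, Λ.Exc2 out (pre ++ Wa) (Wb ++ post) A b x p := by
  obtain ⟨W1, W2, hW, b, m, hm, K, hK, hKm, hfull⟩ := hg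
  rcases List.append_eq_append_iff.1 hW with ⟨c, h1, h2⟩ | ⟨c, h1, h2⟩
  · -- `W1 = Wa ++ c`, `Wb = c ++ W2`
    subst h1
    rw [cnt_append] at hm
    have hsub : ∀ x, cnt Wa (res (Λ.Free2 A) (fin pre)) x ⊆ fin (pre ++ Wa) x := by
      intro x
      change _ ⊆ cnt (pre ++ Wa) (fun _ => ∅) x
      rw [cnt_append]
      exact cnt_mono Wa (res_sub _ _) x
    have hK' : K ∈ Ctx out (W2 ++ post) (cnt c (fin (pre ++ Wa))) b := by
      rw [fin, ← cnt_append, List.append_assoc]
      exact hK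
    rcases trace out (Λ.Free2 A) hsub c (W2 ++ post) b m K hm hK' with h3 | h3
    · right; left
      refine ⟨c, W2, h2, b, m, ?_, K, ?_, hKm, hfull⟩
      · exact cnt_mono c (D := res (Λ.Free2 A) (fin (pre ++ Wa)))
          (fun x y hy => ⟨hsub x hy.1, hy.2⟩) b h3
      · rw [List.append_assoc]; exact hK
    · obtain ⟨b', m0, hm0, hQ, m', rfl, hc⟩ := h3
      have hKm' : K + m' + m0 = x := by rw [← hKm]; abel
      by_cases hf : Λ.Full2 p A m0
      · left
        refine ⟨Wa, [], by simp, b', m0, hm0, K + m', ?_, hKm', hf⟩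
        rw [h2, List.nil_append, List.append_assoc]
        exact hc
      · right; right
        refine ⟨b', m0, hsub _ hm0, K + m', ?_, hKm', hQ, hf⟩
        rw [h2, List.append_assoc]
        exact hc
  · -- `Wa = W1 ++ c`
    left
    refine ⟨W1, c, h1, b, m, hm, K, ?_, hKm, hfull⟩
    rw [h2, List.append_assoc] at hK
    exact hK

theorem good2_mono {out : R} {pre W post : List (Step V R)} {A A' : Finset ℕ} {x : Mon V}
    {p : ℕ → Fin M} (hg : Λ.Good2 out pre W post A x p) (hA : A' ⊆ A) :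
    Λ.Good2 out pre W post A' x p := by
  obtain ⟨W1, W2, hW, b, m, hm, K, hK, hKm, hfull⟩ := hg
  refine ⟨W1, W2, hW, b, m, ?_, K, hK, hKm, fun i hi => hfull i (hA hi)⟩
  refine cnt_mono W1 ?_ b hm
  rintro x y ⟨hy, hQ⟩
  exact ⟨hy, fun e he h => hQ e he (hA h)⟩

theorem good2_length {out : R} {pre W post : List (Step V R)} {A : Finset ℕ} {x : Mon V}
    {p : ℕ → Fin M} (hA : ∀ i ∈ A, i < ℓ) (hA2 : 2 ≤ #A)
    (hg : Λ.Good2 out pre W post A x p) : 2 ≤ W.length := by
  obtain ⟨W1, W2, hW, b, m, hm, K, hK, hKm, hfull⟩ := hg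
  have key : ∀ i ∈ A, ∃ S ∈ W1, S.x = (Λ.edge p i).1 := by
    intro i hi
    rcases cnt_support W1 _ b m hm _ (hfull i hi) with h1 | ⟨b', m', hm', he⟩
    · exact h1
    · exfalso
      apply hm'.2 _ he
      rw [Λ.L_edge (hA i hi)]
      exact hi
  obtain ⟨i, hi, i', hi', hne'⟩ := Finset.one_lt_card.1 (by omega : 1 < #A)
  obtain ⟨c, hc, hc1⟩ := key i hi
  obtain ⟨c', hc', hc1'⟩ := key i' hi'
  have hne : c ≠ c' := by
    rintro rfl
    have := congrArg Λ.L (hc1.symm.trans hc1')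
    rw [Λ.L_edge (hA i hi), Λ.L_edge (hA i' hi')] at this
    exact hne' this
  have h2 : 2 ≤ W1.length := by
    by_contra hcon
    push Not at hcon
    match W1, hc, hc', hcon with
    | [x], hc, hc', _ =>
      rw [List.mem_singleton] at hc hc'
      exact hne (hc.trans hc'.symm)
  rw [hW, List.length_append]
  omega

open Classical in
/-- `A` is a set of positions in `[a, a + h)` which occur once in the monomial `x` of `p`, and at most
`d` positions are missing. -/
def Clean (a h d : ℕ) (A : Finset ℕ) (x : Mon V) (p : ℕ → Fin M) : Prop :=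
  Λ.Supp x p ∧ (∀ i ∈ A, a ≤ i ∧ i < a + h) ∧ (∀ i ∈ A, x.1.count (Λ.edge p i) = 1) ∧
    h ≤ #A + d

/-- In the exceptional situation the path meets a sequence which is determined by the register. -/
theorem exc2_meet {P pre post : List (Step V R)} {out : R} (hP : Sound P out s t)
    (hPP : P = pre ++ post) {a h d : ℕ} (hah : a + h ≤ ℓ) (b : R) (x0 : Fin M) :
    ∃ y : ℕ → Fin M, ∀ p x A, Λ.Clean a h d A x p → Λ.Exc2 out pre post A b x p →
      ∃ j, a < j ∧ j < a + h ∧ p j = y j := by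
  classical
  by_cases hex : ∃ q x A, Λ.Clean a h d A x q ∧ Λ.Exc2 out pre post A b x q
  swap
  · exact ⟨fun _ => x0, fun p x A h1 h2 => absurd ⟨p, x, A, h1, h2⟩ hex⟩
  obtain ⟨q, x, A, hcl, m, hm, K, hK, hKm, hfree, hfull⟩ := hex
  obtain ⟨hsupp, hAJ, hcount, -⟩ := hcl
  simp only [Free2] at hfree
  push Not at hfree
  obtain ⟨e, he, heA⟩ := hfree
  have hmem : ∀ e, e ∈ x.1 ↔ e ∈ K.1 ∨ e ∈ m.1 := by
    intro e
    rw [← hKm, Prod.fst_add, Multiset.mem_add]
  obtain ⟨i, hi, hie⟩ := (hsupp e).1 ((hmem e).2 (Or.inr he))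
  subst hie
  rw [Λ.L_edge hi] at heA
  have hiK : Λ.edge q i ∉ K.1 := by
    intro hc
    have h1 := hcount i heA
    rw [← hKm, Prod.fst_add, Multiset.count_add] at h1
    have h2 := Multiset.one_le_count_iff_mem.2 he
    have h3 := Multiset.one_le_count_iff_mem.2 hc
    omega
  refine ⟨q, ?_⟩
  rintro p x' A' ⟨hsupp', hAJ', hcount', -⟩ ⟨m', hm', K', hK', hKm', -, hfull'⟩
  simp only [Full2] at hfull'
  push Not at hfull'
  obtain ⟨l, hl, hlm⟩ := hfull'
  have hx : K + m' ∈ fin P out := by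
    rw [hPP, fin, cnt_append]
    exact plug hK hm'
  have hl2 := hAJ' l hl
  have hi2 := hAJ i heA
  obtain ⟨j, hj1, hj2, hj3⟩ := Λ.coincide hP hx
    (fun e he => (hsupp e).1 ((hmem e).2 (Or.inl he)))
    (fun e he => (hsupp' e).1 (by
      rw [← hKm', Prod.fst_add, Multiset.mem_add]
      exact Or.inr he)) hi (by omega) hiK hlm
  exact ⟨j, by omega, by omega, hj3⟩

open Classical in
/-- The set of the parts of paths (with given end points `u`, `v`) which are put together in the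
window, except for at most `d` positions. -/
noncomputable def S2 (out : R) (pre W post : List (Step V R)) (i d a : ℕ) (u v : Fin M) :
    Finset (Tr M i) :=
  {z | ∃ p : ℕ → Fin M, (∀ j ≤ 2 ^ i, p (a + j) = pth i u z v j) ∧
    ∃ x A, Λ.Clean a (2 ^ i) d A x p ∧ Λ.Good2 out pre W post A x p}

theorem mem_S2 {out : R} {pre W post : List (Step V R)} {i d a : ℕ} {u v : Fin M} {z : Tr M i} :
    z ∈ Λ.S2 out pre W post i d a u v ↔
      ∃ p : ℕ → Fin M, (∀ j ≤ 2 ^ i, p (a + j) = pth i u z v j) ∧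
        ∃ x A, Λ.Clean a (2 ^ i) d A x p ∧ Λ.Good2 out pre W post A x p := by
  simp [S2]

/-- the product inequality -/
theorem card_S2_succ (out : R) (pre W post : List (Step V R)) (i d a : ℕ) (u v : Fin M) :
    #(Λ.S2 out pre W post (i + 1) d a u v) ≤
      ∑ d1 ∈ range (d + 1), ∑ x : Fin M,
        #(Λ.S2 out pre W post i d1 a u x) * #(Λ.S2 out pre W post i (d - d1) (a + 2 ^ i) x v) := by
  classical
  have h2 : 2 ^ (i + 1) = 2 ^ i + 2 ^ i := by ring
  have h3 : 0 < 2 ^ i := by positivity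
  have : #(Λ.S2 out pre W post (i + 1) d a u v) ≤
      #((range (d + 1)).biUnion (fun d1 => (univ.sigma (fun x : Fin M =>
        (Λ.S2 out pre W post i d1 a u x) ×ˢ
        (Λ.S2 out pre W post i (d - d1) (a + 2 ^ i) x v))))) := by
    apply Finset.card_le_card_of_injOn (fun z => ⟨z.2.1, (z.1, z.2.2)⟩)
    · intro z hz
      rw [mem_coe, mem_S2] at hz
      obtain ⟨p, hp, x, A, ⟨hs, hAJ, hct, hcard⟩, hg⟩ := hz
      set A1 := A.filter (fun j => j < a + 2 ^ i) with hA1
      set A2 := A.filter (fun j => ¬ j < a + 2 ^ i) with hA2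
      have hsum : #A1 + #A2 = #A := Finset.card_filter_add_card_filter_not (s := A) _
      have hA1c : #A1 ≤ 2 ^ i := by
        have : A1 ⊆ Finset.Ico a (a + 2 ^ i) := by
          intro j hj
          rw [hA1, mem_filter] at hj
          exact mem_Ico.2 ⟨(hAJ j hj.1).1, hj.2⟩
        simpa using card_le_card this
      have hA2c : #A2 ≤ 2 ^ i := by
        have : A2 ⊆ Finset.Ico (a + 2 ^ i) (a + 2 ^ i + 2 ^ i) := by
          intro j hj
          rw [hA2, mem_filter] at hj
          have := (hAJ j hj.1).2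
          exact mem_Ico.2 ⟨by omega, by omega⟩
        simpa using card_le_card this
      have hd1 : 2 ^ i - #A1 ≤ d := by omega
      simp only [mem_coe, mem_biUnion, mem_range, mem_sigma, mem_univ, true_and, mem_product, mem_S2]
      refine ⟨2 ^ i - #A1, by omega,
        ⟨p, fun j hj => by rw [hp j (by omega), pth_left _ _ _ _ hj], x, A1,
          ⟨hs, fun j hj => ?_, fun j hj => hct j (filter_subset _ _ hj), by omega⟩,
          Λ.good2_mono hg (filter_subset _ _)⟩,
        ⟨p, fun j hj => by rw [add_assoc, hp _ (by omega), pth_right], x, A2,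
          ⟨hs, fun j hj => ?_, fun j hj => hct j (filter_subset _ _ hj), by omega⟩,
          Λ.good2_mono hg (filter_subset _ _)⟩⟩
      · rw [hA1, mem_filter] at hj
        exact ⟨(hAJ j hj.1).1, hj.2⟩
      · rw [hA2, mem_filter] at hj
        have := (hAJ j hj.1).2
        exact ⟨by omega, by omega⟩
    · rintro ⟨z1, y, z2⟩ - ⟨z1', y', z2'⟩ - hzz
      simp only [Sigma.mk.injEq] at hzz
      obtain ⟨rfl, hzz⟩ := hzz
      rw [heq_eq_eq, Prod.mk.injEq] at hzz
      obtain ⟨rfl, rfl⟩ := hzz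
      rfl
  refine this.trans (card_biUnion_le.trans (le_of_eq ?_))
  apply Finset.sum_congr rfl
  intro d1 _
  rw [card_sigma]
  apply Finset.sum_congr rfl
  intro y _
  rw [card_product]

/-- the splitting inequality -/
theorem card_S2_split [Fintype R] {P : List (Step V R)} {out : R} (hP : Sound P out s t)
    {pre Wa Wb post : List (Step V R)} (hPP : P = pre ++ (Wa ++ Wb) ++ post) {i d a : ℕ}
    (hai : a + 2 ^ i ≤ ℓ) (u v : Fin M) :
    #(Λ.S2 out pre (Wa ++ Wb) post i d a u v) * M ≤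
      (#(Λ.S2 out pre Wa (Wb ++ post) i d a u v) + #(Λ.S2 out (pre ++ Wa) Wb post i d a u v)) * M +
        Fintype.card R * (2 ^ i * nT M i) := by
  classical
  have hPP' : P = (pre ++ Wa) ++ (Wb ++ post) := by rw [hPP]; simp
  choose y hy using fun b : R => Λ.exc2_meet hP hPP' (d := d) hai b u
  let E : R → Finset (Tr M i) := fun b =>
    {z | ∃ j, 0 < j ∧ j < 2 ^ i ∧ pth i u z v j = y b (a + j)}
  have hE : ∀ b, #(E b) * M ≤ 2 ^ i * nT M i := fun b => card_meet i u v (fun j => y b (a + j))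
  have hsub : Λ.S2 out pre (Wa ++ Wb) post i d a u v ⊆
      (Λ.S2 out pre Wa (Wb ++ post) i d a u v ∪ Λ.S2 out (pre ++ Wa) Wb post i d a u v) ∪
        univ.biUnion E := by
    intro z hz
    rw [mem_S2] at hz
    obtain ⟨p, hp, x, A, hcl, hg⟩ := hz
    rcases Λ.good2_split hg with h | h | ⟨b, h⟩
    · exact mem_union_left _ (mem_union_left _ (Λ.mem_S2.2 ⟨p, hp, x, A, hcl, h⟩))
    · exact mem_union_left _ (mem_union_right _ (Λ.mem_S2.2 ⟨p, hp, x, A, hcl, h⟩))
    · refine mem_union_right _ (mem_biUnion.2 ⟨b, mem_univ _, ?_⟩)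
      obtain ⟨j, hj1, hj2, hj3⟩ := hy b p x A hcl h
      simp only [E, mem_filter, mem_univ, true_and]
      refine ⟨j - a, by omega, by omega, ?_⟩
      rw [← hp _ (by omega), Nat.add_sub_cancel' hj1.le]
      exact hj3
  calc #(Λ.S2 out pre (Wa ++ Wb) post i d a u v) * M
      ≤ (#(Λ.S2 out pre Wa (Wb ++ post) i d a u v) + #(Λ.S2 out (pre ++ Wa) Wb post i d a u v) +
          ∑ b, #(E b)) * M := by
        apply Nat.mul_le_mul_right
        refine (Finset.card_le_card hsub).trans ((card_union_le _ _).trans ?_)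
        exact add_le_add (card_union_le _ _) card_biUnion_le
    _ = (#(Λ.S2 out pre Wa (Wb ++ post) i d a u v) +
          #(Λ.S2 out (pre ++ Wa) Wb post i d a u v)) * M + ∑ b, #(E b) * M := by
        rw [add_mul, Finset.sum_mul]
    _ ≤ _ := by
        apply Nat.add_le_add_left
        calc ∑ b, #(E b) * M ≤ ∑ _b : R, 2 ^ i * nT M i := Finset.sum_le_sum (fun b _ => hE b)
          _ = _ := by simp

theorem card_S2_length {out : R} {pre W post : List (Step V R)} {i d a : ℕ}
    (hai : a + 2 ^ i ≤ ℓ) (hd : d + 2 ≤ 2 ^ i) (hW : W.length ≤ 1) (u v : Fin M) :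
    #(Λ.S2 out pre W post i d a u v) = 0 := by
  rw [card_eq_zero, eq_empty_iff_forall_notMem]
  intro z hz
  obtain ⟨p, -, x, A, ⟨hs, hAJ, hct, hcard⟩, hg⟩ := Λ.mem_S2.1 hz
  have := Λ.good2_length (fun j hj => by have := hAJ j hj; omega) (by omega) hg
  omega

end Lay

end Pool.Agent.L5helper51.SX
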