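import Pool.Agent.L5helper51.SX.Layer

/-!
# Programs which approximate the distance
-/

namespace Pool.Agent.L5helper51.SX

open Pool.Agent.L5helper51.SV (Mon evm evm_add walkWeight dist ext subset_ext mem_ext ext_le res)

variable {V R : Type*}

namespace Lay

variable {M ℓ : ℕ} {s t : V} (Λ : Lay V M ℓ s t)

/-- the pairs in `x` are the edges of `p` -/
def Supp (x : Mon V) (p : ℕ → Fin M) : Prop := ∀ e, e ∈ x.1 ↔ ∃ i < ℓ, Λ.edge p i = e

/-- If a sound program gives at most `B` for the weights of a path, it has a monomial with at most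
`B` factors which are just the edges of the path. -/
theorem exists_mem {P : List (Step V R)} {out : R} (hP : Sound P out s t)
    (p : ℕ → Fin M) {B : ℕ} (hf : value P out (Λ.wt p) ≤ (B : ℕ∞)) :
    ∃ x ∈ fin P out, Λ.Supp x p ∧ Multiset.card x.1 ≤ B := by
  classical
  have M0 : Fin M := p 0
  obtain ⟨w, hw⟩ : ∃ w, w = Λ.wt p := ⟨_, rfl⟩
  rw [← hw] at hf
  have hwp : ∀ i < ℓ, w (Λ.edge p i) = 1 := by
    intro i hi
    rw [hw]
    exact Λ.wt_edge p hi
  have h3 : value P out w ≠ ⊤ := ne_top_of_le_ne_top (ENat.natCast_ne_top B) hf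
  obtain ⟨x, hx, hx'⟩ := attained w P (fun _ => ∅) (fun _ => ⊤) (by simp) out h3
  -- the support of `x`
  have hfin : evm w x ≠ ⊤ := by rw [← hx']; exact h3
  have hle : evm w x ≤ B := by rw [← hx']; exact hf
  have hsupp : ∀ e ∈ x.1, ∃ i < ℓ, Λ.edge p i = e := by
    intro e he
    by_contra hcon
    apply hfin
    have : w e = ⊤ := by simp only [hw, wt, if_neg hcon]
    obtain ⟨y, hy⟩ := Multiset.exists_cons_of_mem he
    rw [evm, hy, Multiset.map_cons, Multiset.sum_cons, this]
    simp
  have hcard : evm w x = ((Multiset.card x.1 + x.2 : ℕ) : ℕ∞) := by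
    rw [evm]
    have : x.1.map w = x.1.map (fun _ => (1 : ℕ∞)) := by
      apply Multiset.map_congr rfl
      intro e he
      obtain ⟨i, hi, rfl⟩ := hsupp e he
      exact hwp i hi
    rw [this]
    simp
  rw [hcard, Nat.cast_le] at hle
  have hcov : ∀ i < ℓ, Λ.edge p i ∈ x.1 := by
    intro i hi
    obtain ⟨e, he, he1, he2⟩ := cut hP hx (S := {y | Λ.L y ≤ i})
      (by simp [Λ.L_s M0]) (by simp [Λ.L_t M0, hi])
    simp only [Set.mem_ofPred_eq, not_le] at he1 he2
    obtain ⟨j, hj, rfl⟩ := hsupp e he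
    rw [Λ.L_edge hj] at he1
    rw [Λ.L_edge2 hj] at he2
    have : j = i := by omega
    subst this
    exact he
  refine ⟨x, hx, fun e => ⟨hsupp e, ?_⟩, by omega⟩
  rintro ⟨i, hi, rfl⟩
  exact hcov i hi

/-- Two paths whose monomials can be exchanged meet: `K` lacks position `i` of `q`, `m` lacks
position `l` of `p`. -/
theorem coincide {P : List (Step V R)} {out : R} (hP : Sound P out s t)
    {p q : ℕ → Fin M} {K m : Mon V} (hx : K + m ∈ fin P out)
    (hK : ∀ e ∈ K.1, ∃ i < ℓ, Λ.edge q i = e) (hm : ∀ e ∈ m.1, ∃ i < ℓ, Λ.edge p i = e)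
    {i l : ℕ} (hi : i < ℓ) (hl : l < ℓ) (hiK : Λ.edge q i ∉ K.1) (hlm : Λ.edge p l ∉ m.1) :
    ∃ j, min i l < j ∧ j ≤ max i l ∧ p j = q j := by
  have M0 : Fin M := p 0
  by_contra hcon
  push Not at hcon
  rcases le_total i l with hil | hli
  · rw [min_eq_left hil, max_eq_right hil] at hcon
    obtain ⟨e, he, he1, he2⟩ := cut hP hx
      (S := {x | Λ.L x ≤ i ∨ (Λ.L x ≤ l ∧ x = Λ.node (Λ.L x) (p (Λ.L x)))})
      (by simp [Λ.L_s M0]) (by
        simp only [Set.mem_ofPred_eq, Λ.L_t M0]
        omega)
    simp only [Set.mem_ofPred_eq, not_or, not_and] at he1 he2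
    rw [Prod.fst_add, Multiset.mem_add] at he
    rcases he with he | he
    · -- an edge of `q`
      obtain ⟨j, hj, rfl⟩ := hK e he
      rw [Λ.L_edge hj] at he1
      rw [Λ.L_edge2 hj] at he2
      rcases he1 with h1 | ⟨h1, h2⟩
      · have hji : j = i := by omega
        subst hji
        exact hiK he
      · -- `q j = p j`
        have h3 : i < j ∨ j ≤ i := lt_or_ge _ _
        rcases h3 with h3 | h3
        · have h4 : Λ.node j (q j) = Λ.node j (p j) := h2
          exact hcon j h3 h1 (Λ.inj j (by omega) hj h4).symm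
        · have hji : j = i := by omega
          subst hji
          exact hiK he
    · -- an edge of `p`
      obtain ⟨j, hj, rfl⟩ := hm e he
      rw [Λ.L_edge hj] at he1
      rw [Λ.L_edge2 hj] at he2
      rcases he1 with h1 | ⟨h1, h2⟩
      · have hji : j = i := by omega
        subst hji
        have h5 : ¬ (j + 1 ≤ l) := fun h => he2.2 h rfl
        have hjl : j = l := by omega
        subst hjl
        exact hlm he
      · have h5 : ¬ (j + 1 ≤ l) := fun h => he2.2 h rfl
        have hjl : j = l := by omega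
        subst hjl
        exact hlm he
  · rw [min_eq_right hli, max_eq_left hli] at hcon
    obtain ⟨e, he, he1, he2⟩ := cut hP hx
      (S := {x | Λ.L x ≤ l ∨ (Λ.L x ≤ i ∧ x = Λ.node (Λ.L x) (q (Λ.L x)))})
      (by simp [Λ.L_s M0]) (by
        simp only [Set.mem_ofPred_eq, Λ.L_t M0]
        omega)
    simp only [Set.mem_ofPred_eq, not_or, not_and] at he1 he2
    rw [Prod.fst_add, Multiset.mem_add] at he
    rcases he with he | he
    · -- an edge of `q`
      obtain ⟨j, hj, rfl⟩ := hK e he
      rw [Λ.L_edge hj] at he1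
      rw [Λ.L_edge2 hj] at he2
      have h5 : ¬ (j + 1 ≤ i) := fun h => he2.2 h rfl
      have hji : j = i := by omega
      subst hji
      exact hiK he
    · -- an edge of `p`
      obtain ⟨j, hj, rfl⟩ := hm e he
      rw [Λ.L_edge hj] at he1
      rw [Λ.L_edge2 hj] at he2
      rcases he1 with h1 | ⟨h1, h2⟩
      · have hjl : j = l := by omega
        subst hjl
        exact hlm he
      · have h3 : l < j ∨ j ≤ l := lt_or_ge _ _
        rcases h3 with h3 | h3
        · have h4 : Λ.node j (p j) = Λ.node j (q j) := h2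
          exact hcon j h3 h1 (Λ.inj j (by omega) hj h4)
        · have hjl : j = l := by omega
          subst hjl
          exact hlm he

end Lay

end Pool.Agent.L5helper51.SX
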