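import Pool.Agent.L5helper51.SY.Approx

/-!
# The lower bound for approximation, in logarithmic form
-/

namespace Pool.Agent.L5helper51.SX

open Pool.Agent.L5helper51.SV (dist)

open Finset Real

set_option maxHeartbeats 4000000 in
/-- The lower bound for programs which approximate the distance up to a factor `a / b < 2`. -/
theorem approx_log (a b : ℕ) (hb : 0 < b) (hab : b ≤ a) (hab2 : a < 2 * b) :
    ∃ Λ0 : ℝ, 0 < Λ0 ∧ ∀ (V R Ω : Type) [Fintype V] [Fintype R] [Fintype Ω] [Nonempty Ω] (s t : V),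
      s ≠ t → ∀ (P : Ω → List (Step V R)) (out : R) (q T : ℕ), Approx P out s t a b q T →
      Λ0 * Fintype.card R ≤ Fintype.card V →
      (2 - (a : ℝ) / b) ^ 2 / 256 * (logb 2 ((Fintype.card V : ℝ) / Fintype.card R)) ^ 2 ≤
        logb 2 ((q * T : ℕ) : ℝ) := by
  have hbR : (0 : ℝ) < b := by exact_mod_cast hb
  set ε : ℝ := 2 - (a : ℝ) / b with hε
  have hε0 : 0 < ε := by
    have h1 : (a : ℝ) / b < 2 := by
      rw [div_lt_iff₀ hbR]
      exact_mod_cast hab2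
    linarith
  have hε1 : ε ≤ 1 := by
    have h1 : 1 ≤ (a : ℝ) / b := by
      rw [le_div_iff₀ hbR, one_mul]
      exact_mod_cast hab
    linarith
  obtain ⟨i0, hi0⟩ : ∃ i0 : ℕ, (1 : ℝ) / 2 ^ i0 ≤ ε / 2 := by
    obtain ⟨n, hn⟩ := exists_pow_lt_of_lt_one (half_pos hε0) (by norm_num : (1 / 2 : ℝ) < 1)
    exact ⟨n, by rw [one_div, ← inv_pow, ← one_div]; exact hn.le⟩
  set κ : ℝ := 1 - 1 / 2 ^ i0 with hκ
  have hκ1 : 1 - ε / 2 ≤ κ := by rw [hκ]; linarith
  have hκ0 : 0 < κ := by linarith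
  have hκ2 : κ ≤ 1 := by
    have : (0 : ℝ) ≤ 1 / 2 ^ i0 := by positivity
    linarith
  set Y0 : ℝ := (72 + 32 * (1 + i0)) / ε with hY0
  refine ⟨(2 : ℝ) ^ Y0, by positivity, ?_⟩
  intro V R Ω _ _ _ _ s t hst P out q T hP hVR
  have hr0 : 0 < Fintype.card R := Fintype.card_pos_iff.2 ⟨out⟩
  have hN0 : 0 < Fintype.card V := Fintype.card_pos_iff.2 ⟨s⟩
  obtain ⟨r, hr⟩ : ∃ r, Fintype.card R = r := ⟨_, rfl⟩
  obtain ⟨N, hN⟩ : ∃ N, Fintype.card V = N := ⟨_, rfl⟩
  rw [hr] at hr0 hVR ⊢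
  rw [hN] at hN0 hVR ⊢
  have hrR : (0 : ℝ) < r := by exact_mod_cast hr0
  have hr1 : (1 : ℝ) ≤ r := by exact_mod_cast hr0
  have hNR : (0 : ℝ) < N := by exact_mod_cast hN0
  set y : ℝ := logb 2 ((N : ℝ) / r) with hy
  have h2y : (2 : ℝ) ^ y = (N : ℝ) / r :=
    rpow_logb (by norm_num) (by norm_num) (by positivity)
  have hyY : Y0 ≤ y := by
    rw [hy, le_logb_iff_rpow_le (by norm_num) (by positivity), le_div_iff₀ hrR]
    exact hVR
  have hεy : 72 + 32 * (1 + (i0 : ℝ)) ≤ ε * y := by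
    have : Y0 * ε ≤ y * ε := mul_le_mul_of_nonneg_right hyY hε0.le
    rw [hY0, div_mul_cancel₀ _ hε0.ne'] at this
    linarith
  have hi0R : (0 : ℝ) ≤ i0 := Nat.cast_nonneg _
  have hy72 : 72 ≤ y := by
    have h1 : 72 ≤ ε * y := by linarith
    have hy0 : 0 < y := by
      by_contra hcon
      push Not at hcon
      have : ε * y ≤ 0 := mul_nonpos_of_nonneg_of_nonpos hε0.le hcon
      linarith
    have h2 : ε * y ≤ 1 * y := mul_le_mul_of_nonneg_right hε1 hy0.le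
    linarith
  have hεyy : ε * y ≤ y := by
    have := mul_le_mul_of_nonneg_right hε1 (by linarith : (0 : ℝ) ≤ y)
    linarith
  set k : ℕ := ⌊ε * y / 16⌋₊ with hk
  have hk1 : (k : ℝ) ≤ ε * y / 16 := Nat.floor_le (by linarith)
  have hk2 : ε * y / 16 < k + 1 := Nat.lt_floor_add_one _
  have hki : ε * y / 32 ≤ (k : ℝ) - i0 := by linarith
  have hik : i0 ≤ k := by
    have : (i0 : ℝ) ≤ k := by linarith
    exact_mod_cast this
  have hNy : (2 : ℝ) ^ y ≤ N := by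
    rw [h2y]
    exact div_le_self hNR.le hr1
  have hNk : (2 : ℝ) ^ (k + 1) ≤ N := by
    refine le_trans ?_ hNy
    rw [← rpow_natCast]
    apply rpow_le_rpow_of_exponent_le (by norm_num)
    push_cast
    linarith
  have hNk' : 2 ^ (k + 1) ≤ N := by exact_mod_cast hNk
  set M : ℕ := N / 2 ^ k with hM
  have hM2 : 2 ≤ M := by
    rw [hM, Nat.le_div_iff_mul_le (by positivity)]
    rw [pow_succ] at hNk'
    omega
  have hMN : M * 2 ^ k ≤ N := Nat.div_mul_le_self _ _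
  have hV : M * (2 ^ k - 1) + 2 ≤ Fintype.card V := by
    rw [hN]
    have h1 : M * (2 ^ k - 1) + M = M * 2 ^ k := by
      have : 2 ^ k = (2 ^ k - 1) + 1 := (Nat.sub_add_cancel Nat.one_le_two_pow).symm
      conv_rhs => rw [this]
      ring
    omega
  set τ : ℝ := (N : ℝ) / (r * 2 ^ (2 * k + 1)) with hτ
  have hτ0 : 0 < τ := by positivity
  have hlogτ : logb 2 τ = y - (2 * k + 1) := by
    rw [hτ, ← div_div, logb_div (by positivity) (by positivity), ← hy, logb_pow,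
      logb_self_eq_one (by norm_num)]
    push_cast
    ring
  have hlogτ0 : 0 ≤ logb 2 τ := by rw [hlogτ]; linarith
  have hτ1 : 1 ≤ τ := by
    rwa [← logb_nonneg_iff (by norm_num : (1 : ℝ) < 2) hτ0]
  have hMτ : (Fintype.card R : ℝ) * 2 ^ k * τ ≤ M := by
    rw [hr, hτ]
    have h1 : (r : ℝ) * 2 ^ k * ((N : ℝ) / (r * 2 ^ (2 * k + 1))) = (N : ℝ) / 2 ^ k / 2 := by
      rw [show 2 * k + 1 = k + k + 1 by ring, pow_succ, pow_add]
      field_simp
    rw [h1]
    have h2 : (N : ℝ) / 2 ^ k < M + 1 := by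
      rw [div_lt_iff₀ (by positivity)]
      have : N < (M + 1) * 2 ^ k := by
        have := Nat.lt_div_mul_add (a := N) (b := 2 ^ k) (by positivity)
        rw [← hM] at this
        rw [add_mul, one_mul]
        exact this
      exact_mod_cast this
    have h3 : (2 : ℝ) ≤ M := by exact_mod_cast hM2
    linarith
  set β : ℝ := ((k : ℝ) - i0) / 2 / κ with hβ
  have hki0 : 0 < (k : ℝ) - i0 := by linarith
  have hβ0 : 0 ≤ β := by positivity
  have hβκ : ((k : ℝ) - i0) / 2 = β * (1 - 1 / 2 ^ i0) := by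
    rw [← hκ, hβ, div_mul_cancel₀ _ hκ0.ne']
  have h := approx_lower hst hb hab hab2.le hP hτ1 hMτ (by omega) hV hik hβκ hβ0
  set E : ℝ := β * ((a : ℝ) / b - 1) - ((k - i0 : ℕ) : ℝ) / 2 with hE
  have hEle : E ≤ -(((k : ℝ) - i0) * ε / 4) := by
    have h1 : (a : ℝ) / b - 1 = 1 - ε := by rw [hε]; ring
    rw [hE, h1, Nat.cast_sub hik, hβ]
    have h2 : ((k : ℝ) - i0) / 2 / κ * (1 - ε) - ((k : ℝ) - i0) / 2 =
        ((k : ℝ) - i0) / 2 * ((1 - ε - κ) / κ) := by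
      field_simp
    rw [h2]
    have h3 : (1 - ε - κ) / κ ≤ -(ε / 2) := by
      rw [div_le_iff₀ hκ0]
      nlinarith
    calc ((k : ℝ) - i0) / 2 * ((1 - ε - κ) / κ) ≤ ((k : ℝ) - i0) / 2 * (-(ε / 2)) :=
          mul_le_mul_of_nonneg_left h3 (by linarith)
      _ = _ := by ring
  have hX : (0 : ℝ) < (q : ℝ) * T := by
    by_contra hcon
    push Not at hcon
    have h1 : (q : ℝ) * T = 0 := le_antisymm hcon (by positivity)
    rw [h1] at h
    norm_num at h
  have hlog := logb_le_logb_of_le (b := 2) (by norm_num) (by norm_num) h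
  rw [logb_one, logb_mul (by positivity) (by positivity), logb_mul hX.ne' (by positivity), ← pow_mul,
    logb_pow, logb_self_eq_one (by norm_num), logb_rpow_eq_mul_logb_of_pos hτ0, hlogτ] at hlog
  have h7 : ((k + 2) * (k - i0) : ℕ) = ((k : ℝ) + 2) * ((k : ℝ) - i0) := by
    push_cast [Nat.cast_sub hik]
    ring
  rw [h7, mul_one] at hlog
  have h8 : E * (y - (2 * k + 1)) ≤ -(((k : ℝ) - i0) * ε / 4) * (y - (2 * k + 1)) := by
    rw [hlogτ] at hlogτ0
    exact mul_le_mul_of_nonneg_right hEle hlogτ0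
  have h9 : ε * y / 8 ≤ ε / 4 * (y - (2 * k + 1)) - (k + 2) := by
    have h10 : ε * k ≤ k := by
      have := mul_le_mul_of_nonneg_right hε1 (Nat.cast_nonneg k : (0 : ℝ) ≤ k)
      linarith
    have h12 : ε / 4 * (y - (2 * k + 1)) = ε * y / 4 - ε * k / 2 - ε / 4 := by ring
    rw [h12]
    linarith
  have h13 : 0 ≤ ε * y / 8 := by linarith
  have h11 : (ε * y / 32) * (ε * y / 8) ≤
      ((k : ℝ) - i0) * (ε / 4 * (y - (2 * k + 1)) - (k + 2)) :=
    mul_le_mul hki h9 h13 hki0.le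
  have h14 : (ε * y / 32) * (ε * y / 8) = ε ^ 2 / 256 * y ^ 2 := by ring
  have h15 : ((k : ℝ) - i0) * (ε / 4 * (y - (2 * k + 1)) - (k + 2)) =
      (((k : ℝ) - i0) * ε / 4) * (y - (2 * k + 1)) - ((k : ℝ) + 2) * ((k : ℝ) - i0) := by ring
  rw [Nat.cast_mul]
  linarith

end Pool.Agent.L5helper51.SX
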