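import Pool.Agent.L5helper51.SY.Count
import Pool.Agent.L5helper51.SX.Main

/-!
# The lower bound for approximating programs
-/

namespace Pool.Agent.L5helper51.SX

open Pool.Agent.L5helper51.SV (Mon evm evm_add walkWeight dist ext subset_ext mem_ext ext_le res)

open Finset

variable {V R : Type*} {M ℓ : ℕ} {s t : V} (Λ : Lay V M ℓ s t)

namespace Lay

section

variable [Fintype R] {P : List (Step V R)} {out : R} {k : ℕ} {τ : ℝ}

include Λ in
theorem split_real (hP : Sound P out s t) (hτ : 1 ≤ τ)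
    (hM : (Fintype.card R : ℝ) * 2 ^ k * τ ≤ M) (hM0 : 0 < M)
    {pre Wa Wb post : List (Step V R)} (hPP : P = pre ++ (Wa ++ Wb) ++ post) {i d a : ℕ}
    (hik : i ≤ k) (hai : a + 2 ^ i ≤ ℓ) (u v : Fin M) :
    (#(Λ.S2 out pre (Wa ++ Wb) post i d a u v) : ℝ) ≤
      #(Λ.S2 out pre Wa (Wb ++ post) i d a u v) + #(Λ.S2 out (pre ++ Wa) Wb post i d a u v) +
        1 / τ * nT M i := by
  have h := Λ.card_S2_split hP hPP (d := d) hai u v
  have h' : (#(Λ.S2 out pre (Wa ++ Wb) post i d a u v) : ℝ) * M ≤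
      (#(Λ.S2 out pre Wa (Wb ++ post) i d a u v) + #(Λ.S2 out (pre ++ Wa) Wb post i d a u v)) * M +
        Fintype.card R * (2 ^ i * nT M i) := by exact_mod_cast h
  have hMR : (0 : ℝ) < M := by exact_mod_cast hM0
  have hτ0 : 0 < τ := by linarith
  have hn : (0 : ℝ) ≤ nT M i := Nat.cast_nonneg _
  have h2 : (Fintype.card R : ℝ) * (2 ^ i * nT M i) ≤ 1 / τ * nT M i * M := by
    have h3 : (Fintype.card R : ℝ) * 2 ^ i ≤ 1 / τ * M := by
      rw [div_mul_eq_mul_div, one_mul, le_div_iff₀ hτ0]
      refine le_trans ?_ hM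
      have : (2 : ℝ) ^ i ≤ 2 ^ k := pow_le_pow_right₀ (by norm_num) hik
      gcongr
    calc (Fintype.card R : ℝ) * (2 ^ i * nT M i) = (Fintype.card R : ℝ) * 2 ^ i * nT M i := by ring
      _ ≤ 1 / τ * M * nT M i := mul_le_mul_of_nonneg_right h3 hn
      _ = _ := by ring
  refine le_of_mul_le_mul_right ?_ hMR
  calc (#(Λ.S2 out pre (Wa ++ Wb) post i d a u v) : ℝ) * M ≤ _ := h'
    _ ≤ (#(Λ.S2 out pre Wa (Wb ++ post) i d a u v) +
          #(Λ.S2 out (pre ++ Wa) Wb post i d a u v)) * M + 1 / τ * nT M i * M := by linarith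
    _ = _ := by ring

include Λ in
/-- linear bound if there are two clean positions -/
theorem linear_real (hP : Sound P out s t) (hτ : 1 ≤ τ)
    (hM : (Fintype.card R : ℝ) * 2 ^ k * τ ≤ M) (hM0 : 0 < M) {i d a : ℕ}
    (hik : i ≤ k) (hai : a + 2 ^ i ≤ ℓ) (hd : d + 2 ≤ 2 ^ i) (u v : Fin M) :
    ∀ (W pre post : List (Step V R)), P = pre ++ W ++ post →
      (#(Λ.S2 out pre W post i d a u v) : ℝ) ≤ W.length * (1 / τ * nT M i) := by
  intro W
  have hτ0 : 0 < τ := by linarith
  induction W with
  | nil =>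
    intro pre post _
    rw [Λ.card_S2_length hai hd (by simp) u v]
    simp
  | cons x W ih =>
    intro pre post hPP
    have h1 := Λ.split_real hP hτ hM hM0 (Wa := [x]) (Wb := W) (pre := pre) (post := post)
      (by simpa using hPP) (d := d) hik hai u v
    rw [List.singleton_append, Λ.card_S2_length (W := [x]) hai hd (by simp) u v] at h1
    have h2 := ih (pre ++ [x]) post (by simpa using hPP)
    refine h1.trans ?_
    rw [List.length_cons]
    push_cast
    linarith

include Λ in
theorem main2 (hP : Sound P out s t) (hτ : 1 ≤ τ)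
    (hM : (Fintype.card R : ℝ) * 2 ^ k * τ ≤ M) (hM0 : 0 < M) (hl : ℓ = 2 ^ k) {i0 : ℕ}
    {β : ℝ} (hβ : ((k : ℝ) - i0) / 2 = β * (1 - 1 / 2 ^ i0)) (hβ0 : 0 ≤ β) :
    ∀ (j : ℕ), i0 + j ≤ k → ∀ (d : ℕ), d ≤ 2 ^ k → ∀ (W pre post : List (Step V R)) (a : ℕ)
      (u v : Fin M), W ≠ [] → P = pre ++ W ++ post → a + 2 ^ (i0 + j) ≤ ℓ →
      (#(Λ.S2 out pre W post (i0 + j) d a u v) : ℝ) ≤
        W.length * ((2 : ℝ) ^ (k + 2)) ^ j * τ ^ (β * d / 2 ^ (i0 + j) - j / 2) *
          nT M (i0 + j) := by
  have hτ0 : 0 < τ := by linarith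
  have triv : ∀ (i d : ℕ) (W pre post : List (Step V R)) (a : ℕ) (u v : Fin M),
      (#(Λ.S2 out pre W post i d a u v) : ℝ) ≤ nT M i := by
    intro i d W pre post a u v
    exact_mod_cast Finset.card_le_univ _
  have hlen : ∀ W : List (Step V R), W ≠ [] → (1 : ℝ) ≤ W.length := by
    intro W hW
    exact_mod_cast List.length_pos_iff.2 hW
  intro j
  induction j with
  | zero =>
    intro hk d hd W pre post a u v hW hPP ha
    have hn : (0 : ℝ) ≤ nT M (i0 + 0) := Nat.cast_nonneg _
    refine (triv _ _ _ _ _ _ _ _).trans ?_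
    have h1 : 1 ≤ τ ^ (β * d / 2 ^ (i0 + 0) - ((0 : ℕ) : ℝ) / 2) := by
      apply Real.one_le_rpow hτ
      rw [Nat.cast_zero, zero_div, sub_zero]
      positivity
    have h2 := hlen W hW
    rw [pow_zero, mul_one]
    calc (nT M (i0 + 0) : ℝ) = 1 * 1 * nT M (i0 + 0) := by ring
      _ ≤ _ := by gcongr
  | succ j ih =>
    intro hk d hd W pre post a u v hW hPP ha
    set i := i0 + j with hi
    have hii : i0 + (j + 1) = i + 1 := by omega
    rw [hii] at ha ⊢
    have hik : i + 1 ≤ k := by omega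
    have h2i : 2 ^ (i + 1) = 2 ^ i + 2 ^ i := by ring
    have h2pos : 0 < 2 ^ i := by positivity
    set C : ℝ := (2 : ℝ) ^ (k + 2) with hC
    have hC1 : 1 ≤ C := one_le_pow₀ (by norm_num)
    have hC0 : 0 < C := by linarith
    set c : ℝ := (nT M i : ℝ) with hc
    have hc0 : 0 < c := by rw [hc]; exact_mod_cast nT_pos hM0 _
    set c' : ℝ := (nT M (i + 1) : ℝ) with hc'
    have hcc : c' = c * M * c := by
      rw [hc', nT_succ, hc]
      push_cast
      ring
    have hc'0 : 0 < c' := by rw [hc']; exact_mod_cast nT_pos hM0 _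
    set e : ℝ := β * d / 2 ^ (i + 1) - ((j + 1 : ℕ) : ℝ) / 2 with he
    have hWl := hlen W hW
    by_cases he0 : 0 ≤ e
    · -- trivial bound
      refine (triv _ _ _ _ _ _ _ _).trans ?_
      have h1 : 1 ≤ τ ^ e := Real.one_le_rpow hτ he0
      have h3 : 1 ≤ C ^ (j + 1) := one_le_pow₀ hC1
      calc (nT M (i + 1) : ℝ) = 1 * 1 * 1 * c' := by rw [hc']; ring
        _ ≤ _ := by gcongr
    push Not at he0
    -- there are two clean positions
    have hd2 : d + 2 ≤ 2 ^ (i + 1) := by
      by_contra hcon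
      push Not at hcon
      have h1 : (2 : ℝ) ^ (i + 1) - 1 ≤ d := by
        have : 2 ^ (i + 1) ≤ d + 1 := by omega
        have : ((2 : ℝ) ^ (i + 1)) ≤ d + 1 := by exact_mod_cast this
        linarith
      have h3 : (2 : ℝ) ^ i0 ≤ 2 ^ (i + 1) := pow_le_pow_right₀ (by norm_num) (by omega)
      have h4 : 1 - 1 / (2 : ℝ) ^ i0 ≤ d / 2 ^ (i + 1) := by
        have h5 : 1 - 1 / (2 : ℝ) ^ i0 ≤ 1 - 1 / 2 ^ (i + 1) := by
          have := one_div_le_one_div_of_le (by positivity) h3
          linarith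
        refine h5.trans ?_
        rw [le_div_iff₀ (by positivity), sub_mul, one_mul, div_mul_cancel₀ _ (by positivity)]
        exact h1
      have h6 : ((k : ℝ) - i0) / 2 ≤ β * d / 2 ^ (i + 1) := by
        rw [hβ, mul_div_assoc]
        exact mul_le_mul_of_nonneg_left h4 hβ0
      have h7 : (((j + 1 : ℕ) : ℝ)) ≤ (k : ℝ) - i0 := by
        have : i0 + (j + 1) ≤ k := by omega
        have : ((i0 : ℝ) + ((j + 1 : ℕ) : ℝ)) ≤ k := by exact_mod_cast this
        linarith
      have : 0 ≤ e := by rw [he]; linarith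
      linarith
    have hlin := Λ.linear_real hP hτ hM hM0 (d := d) hik ha hd2 u v W pre post hPP
    by_cases hB : τ ^ (-1 : ℝ) ≤ C ^ (j + 1) * τ ^ e
    · refine hlin.trans ?_
      rw [Real.rpow_neg_one] at hB
      calc (W.length : ℝ) * (1 / τ * c') = W.length * (τ⁻¹ * c') := by rw [one_div]
        _ ≤ W.length * ((C ^ (j + 1) * τ ^ e) * c') := by gcongr
        _ = _ := by ring
    push Not at hB
    -- the long case
    set Y : ℝ := τ ^ (-1 - e) / C ^ j with hY
    have hCj : 0 < C ^ j := by positivity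
    have hYC : C < Y := by
      rw [hY, lt_div_iff₀ hCj, ← pow_succ']
      have h1 : C ^ (j + 1) * τ ^ e * τ ^ (-e) < τ ^ (-1 : ℝ) * τ ^ (-e) :=
        mul_lt_mul_of_pos_right hB (Real.rpow_pos_of_pos hτ0 _)
      rw [mul_assoc, ← Real.rpow_add hτ0, ← Real.rpow_add hτ0, add_neg_cancel, Real.rpow_zero,
        mul_one] at h1
      rwa [sub_eq_add_neg]
    have hY1 : 1 < Y := by linarith
    set W0 : ℕ := ⌊Y⌋₊ with hW0
    have hW0Y : (W0 : ℝ) ≤ Y := Nat.floor_le (by linarith)
    have hW0Y' : Y < W0 + 1 := Nat.lt_floor_add_one Y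
    have hW01 : 1 ≤ W0 := Nat.le_floor (by exact_mod_cast hY1.le)
    have hW02 : Y ≤ 2 * W0 := by
      have : (1 : ℝ) ≤ W0 := by exact_mod_cast hW01
      linarith
    have hexp : ∀ d1 d2 : ℕ, d1 + d2 = d →
        (β * d1 / 2 ^ i - (j : ℝ) / 2) + (β * d2 / 2 ^ i - (j : ℝ) / 2) = 2 * e + 1 := by
      intro d1 d2 hd12
      rw [he, ← hd12, pow_succ]
      push_cast
      field_simp
      ring
    set κ : ℝ := (d + 1) * C ^ j * τ ^ e with hκ
    have hκ0 : 0 < κ := by positivity
    -- short windows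
    have short : ∀ (W pre post : List (Step V R)), W ≠ [] → P = pre ++ W ++ post →
        W.length ≤ W0 →
        (#(Λ.S2 out pre W post (i + 1) d a u v) : ℝ) ≤ W.length * κ * c' := by
      intro W pre post hW hPP hWW
      have h3 := Λ.card_S2_succ out pre W post i d a u v
      have h3' : (#(Λ.S2 out pre W post (i + 1) d a u v) : ℝ) ≤
          ∑ d1 ∈ range (d + 1), ∑ x : Fin M, (#(Λ.S2 out pre W post i d1 a u x) : ℝ) *
            #(Λ.S2 out pre W post i (d - d1) (a + 2 ^ i) x v) := by exact_mod_cast h3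
      refine h3'.trans ?_
      have hterm : ∀ d1 ∈ range (d + 1), ∑ x : Fin M, (#(Λ.S2 out pre W post i d1 a u x) : ℝ) *
          #(Λ.S2 out pre W post i (d - d1) (a + 2 ^ i) x v) ≤
          (W.length : ℝ) ^ 2 * (C ^ j) ^ 2 * τ ^ (2 * e + 1) * c' := by
        intro d1 hd1
        rw [mem_range] at hd1
        have h4 : ∀ x : Fin M, (#(Λ.S2 out pre W post i d1 a u x) : ℝ) ≤
            W.length * C ^ j * τ ^ (β * d1 / 2 ^ i - (j : ℝ) / 2) * c := fun x =>
          ih (by omega) d1 (by omega) W pre post a u x hW hPP (by omega)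
        have h5 : ∀ x : Fin M, (#(Λ.S2 out pre W post i (d - d1) (a + 2 ^ i) x v) : ℝ) ≤
            W.length * C ^ j * τ ^ (β * ((d - d1 : ℕ) : ℝ) / 2 ^ i - (j : ℝ) / 2) * c := fun x =>
          ih (by omega) (d - d1) (by omega) W pre post (a + 2 ^ i) x v hW hPP (by omega)
        calc ∑ x : Fin M, (#(Λ.S2 out pre W post i d1 a u x) : ℝ) *
              #(Λ.S2 out pre W post i (d - d1) (a + 2 ^ i) x v)
            ≤ ∑ _x : Fin M, (W.length * C ^ j * τ ^ (β * d1 / 2 ^ i - (j : ℝ) / 2) * c) *
                (W.length * C ^ j * τ ^ (β * ((d - d1 : ℕ) : ℝ) / 2 ^ i - (j : ℝ) / 2) * c) := by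
              refine Finset.sum_le_sum fun x _ => ?_
              exact mul_le_mul (h4 x) (h5 x) (by positivity) (by positivity)
          _ = (W.length : ℝ) ^ 2 * (C ^ j) ^ 2 * (τ ^ (β * d1 / 2 ^ i - (j : ℝ) / 2) *
                τ ^ (β * ((d - d1 : ℕ) : ℝ) / 2 ^ i - (j : ℝ) / 2)) * (c * M * c) := by
              rw [Finset.sum_const, card_univ, Fintype.card_fin, nsmul_eq_mul]
              ring
          _ = _ := by
              rw [← Real.rpow_add hτ0, hexp d1 (d - d1) (by omega), hcc]
      calc ∑ d1 ∈ range (d + 1), ∑ x : Fin M, (#(Λ.S2 out pre W post i d1 a u x) : ℝ) *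
            #(Λ.S2 out pre W post i (d - d1) (a + 2 ^ i) x v)
          ≤ ∑ _d1 ∈ range (d + 1), (W.length : ℝ) ^ 2 * (C ^ j) ^ 2 * τ ^ (2 * e + 1) * c' :=
            Finset.sum_le_sum hterm
        _ = (d + 1) * ((W.length : ℝ) ^ 2 * (C ^ j) ^ 2 * τ ^ (2 * e + 1) * c') := by
            rw [Finset.sum_const, card_range, nsmul_eq_mul]
            push_cast
            ring
        _ ≤ (d + 1) * ((W.length : ℝ) * Y * (C ^ j) ^ 2 * τ ^ (2 * e + 1) * c') := by
            have h6 : (W.length : ℝ) ≤ Y := le_trans (by exact_mod_cast hWW) hW0Y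
            rw [pow_two (W.length : ℝ)]
            gcongr
        _ = W.length * κ * c' := by
            rw [hY, hκ]
            have h7 : τ ^ (-1 - e) * τ ^ (2 * e + 1) = τ ^ e := by
              rw [← Real.rpow_add hτ0]
              congr 1
              ring
            rw [← h7]
            field_simp
    -- long windows
    have long : ∀ (n : ℕ) (W pre post : List (Step V R)), W ≠ [] → P = pre ++ W ++ post →
        W.length ≤ (n + 1) * W0 →
        (#(Λ.S2 out pre W post (i + 1) d a u v) : ℝ) ≤ (W.length * κ + n * (1 / τ)) * c' := by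
      intro n
      induction n with
      | zero =>
        intro W pre post hW hPP hWW
        have := short W pre post hW hPP (by simpa using hWW)
        simpa using this
      | succ n ihn =>
        intro W pre post hW hPP hWW
        by_cases hW1 : W.length ≤ W0
        · refine (short W pre post hW hPP hW1).trans ?_
          apply mul_le_mul_of_nonneg_right _ hc'0.le
          have : (0 : ℝ) ≤ ((n + 1 : ℕ) : ℝ) * (1 / τ) := by positivity
          linarith
        · obtain ⟨Wa, Wb, hW2, hla, hlb⟩ := exists_split W W0 (by omega)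
          have hlab : W.length = Wa.length + Wb.length := by omega
          have hPP2 : P = pre ++ (Wa ++ Wb) ++ post := by rw [← hW2]; exact hPP
          have hWa : Wa ≠ [] := by
            intro h; rw [h] at hla; simp at hla; omega
          have hWb : Wb ≠ [] := by
            intro h; rw [h] at hlb; simp at hlb; omega
          have h5 := Λ.split_real hP hτ hM hM0 hPP2 (d := d) hik ha u v
          rw [← hW2] at h5
          have h3 := short Wa pre (Wb ++ post) hWa (by rw [hPP2]; simp only [List.append_assoc])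
            hla.le
          have h4 := ihn Wb (pre ++ Wa) post hWb (by rw [hPP2]; simp only [List.append_assoc]) (by
            have : (n + 1 + 1) * W0 = (n + 1) * W0 + W0 := by ring
            omega)
          refine h5.trans ((add_le_add_left (add_le_add h3 h4) _).trans (le_of_eq ?_))
          rw [hlab, ← hc']
          push_cast
          ring
    -- conclusion
    set n := (W.length - 1) / W0 with hn
    have h6 : W.length ≤ (n + 1) * W0 := by
      have := Nat.lt_div_mul_add (a := W.length - 1) (b := W0) (by omega)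
      rw [← hn] at this
      have h7 : (n + 1) * W0 = n * W0 + W0 := by ring
      omega
    have h7 : n * W0 ≤ W.length := by
      have := Nat.div_mul_le_self (W.length - 1) W0
      rw [← hn] at this
      omega
    have h8 := long n W pre post hW hPP h6
    have h9 : (n : ℝ) * (1 / τ) ≤ 2 * W.length * (C ^ j * τ ^ e) := by
      have h10 : (n : ℝ) * W0 ≤ W.length := by exact_mod_cast h7
      have h11 : (n : ℝ) * Y ≤ 2 * W.length := by
        calc (n : ℝ) * Y ≤ n * (2 * W0) := by gcongr
          _ = 2 * (n * W0) := by ring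
          _ ≤ _ := by linarith
      have h12 : (1 / τ) = Y * (C ^ j * τ ^ e) := by
        rw [hY]
        have : τ ^ (-1 - e) * τ ^ e = 1 / τ := by
          rw [← Real.rpow_add hτ0, show -1 - e + e = (-1 : ℝ) by ring, Real.rpow_neg_one, one_div]
        rw [← this]
        field_simp
      rw [h12, ← mul_assoc]
      gcongr
    calc (#(Λ.S2 out pre W post (i + 1) d a u v) : ℝ)
        ≤ (W.length * κ + n * (1 / τ)) * c' := h8
      _ ≤ (W.length * κ + 2 * W.length * (C ^ j * τ ^ e)) * c' := by gcongr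
      _ = W.length * ((d + 3) * (C ^ j * τ ^ e)) * c' := by rw [hκ]; ring
      _ ≤ W.length * (C * (C ^ j * τ ^ e)) * c' := by
          have h13 : (d : ℝ) + 3 ≤ C := by
            have h14 : (d : ℝ) ≤ 2 ^ k := by exact_mod_cast hd
            have h15 : (1 : ℝ) ≤ 2 ^ k := one_le_pow₀ (by norm_num)
            rw [hC, pow_add]
            norm_num
            linarith
          gcongr
      _ = W.length * C ^ (j + 1) * τ ^ e * c' := by rw [pow_succ]; ring

end

end Lay

end Pool.Agent.L5helper51.SX
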